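import Mathlib
import Pool.Agent.H314.Robin.R16

set_option autoImplicit false

open MeasureTheory Set Filter Topology
open scoped ENNReal NNReal

namespace Pool.Agent.Results.MP_1dc5fb_an.TwoSolutions

/-- A positive reaction: `f` on `[0,1]` has a derivative `f'`, Hölder continuous of some order
`γ` in `(0,1)` on `[0,1]`, with `f 0 = f 1 = 0`, `f > 0` on `(0,1)`, `f' 0 > 0`, `f' 1 < 0`. -/
structure PositiveReaction (f f' : ℝ → ℝ) : Prop where
  deriv : ∀ s ∈ Icc (0 : ℝ) 1, HasDerivWithinAt f (f' s) (Icc 0 1) s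
  hoelder : ∃ γ ∈ Ioo (0 : ℝ) 1, ∃ C : ℝ, ∀ s ∈ Icc (0 : ℝ) 1, ∀ t ∈ Icc (0 : ℝ) 1,
    |f' s - f' t| ≤ C * |s - t| ^ γ
  zero : f 0 = 0
  one : f 1 = 0
  pos : ∀ s ∈ Ioo (0 : ℝ) 1, 0 < f s
  deriv_zero : 0 < f' 0
  deriv_one : f' 1 < 0

/-- Points of `ℝ^d`, `d = n + 2`, written `(x', x_d)` with `x'` in `ℝ^(d-1)` and `x_d` real. -/
abbrev Pt (n : ℕ) := (Fin (n + 1) → ℝ) × ℝ

/-- The epigraph of `ϕ`, the set of `(x', x_d)` with `x_d > ϕ x'`. -/
def epi {n : ℕ} (ϕ : (Fin (n + 1) → ℝ) → ℝ) : Set (Pt n) := {z | ϕ z.1 < z.2}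

/-- The `d` coordinate directions of `ℝ^d`; `none` is the vertical one. -/
def dir {n : ℕ} : Option (Fin (n + 1)) → Pt n
  | none => (0, 1)
  | some i => (Pi.single i 1, 0)

/-- The derivative of `v` at `z` in the coordinate direction `i`. -/
noncomputable def pd {n : ℕ} (v : Pt n → ℝ) (i : Option (Fin (n + 1))) (z : Pt n) : ℝ :=
  fderiv ℝ v z (dir i)

/-- The surface element `√(1 + |∇ϕ|²)` of the graph of `ϕ`. -/
noncomputable def surf {n : ℕ} (ϕ : (Fin (n + 1) → ℝ) → ℝ) (x : Fin (n + 1) → ℝ) : ℝ :=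
  Real.sqrt (1 + ∑ i, (fderiv ℝ ϕ x (Pi.single i 1)) ^ 2)

/-- `u` belongs to `H¹` of every bounded piece of the epigraph `Ω` of `ϕ`, with weak gradient `G`
and boundary trace `T` (in graph coordinates): there are functions `v k` of class `C¹` on the whole
space such that on every ball `(v k, ∇ (v k), v k on ∂Ω)` tends to `(u, G, T)` in `L²`. -/
structure HasGradTrace {n : ℕ} (ϕ : (Fin (n + 1) → ℝ) → ℝ) (u : Pt n → ℝ)
    (G : Option (Fin (n + 1)) → Pt n → ℝ) (T : (Fin (n + 1) → ℝ) → ℝ) : Prop where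
  meas_u : Measurable u
  meas_G : ∀ i, Measurable (G i)
  meas_T : Measurable T
  approx : ∃ v : ℕ → Pt n → ℝ, (∀ k, ContDiff ℝ 1 (v k)) ∧ ∀ R : ℝ,
    Tendsto (fun k => eLpNorm (fun z => v k z - u z) 2
      (volume.restrict (epi ϕ ∩ Metric.ball 0 R))) atTop (𝓝 0) ∧
    (∀ i, Tendsto (fun k => eLpNorm (fun z => pd (v k) i z - G i z) 2
      (volume.restrict (epi ϕ ∩ Metric.ball 0 R))) atTop (𝓝 0)) ∧
    Tendsto (fun k => eLpNorm (fun x => v k (x, ϕ x) - T x) 2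
      (volume.restrict (Metric.ball 0 R))) atTop (𝓝 0)

/-- Positive bounded solution, in the weak (variational) sense, of `-Δu = f(u)` in the epigraph
`Ω` of `ϕ` with `u + α ∂_ν u = 0` on `∂Ω`: `0 < u ≤ 1` in `Ω`, `u` is in `H¹` of every bounded
piece of `Ω`, and
`∫_Ω ∇u · ∇φ + α⁻¹ ∫_∂Ω u φ dσ = ∫_Ω f(u) φ` for all `C¹` functions `φ` on the whole space with
compact support. -/
def IsPosBddSol {n : ℕ} (f : ℝ → ℝ) (α : ℝ) (ϕ : (Fin (n + 1) → ℝ) → ℝ) (u : Pt n → ℝ) : Prop :=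
  (∀ z ∈ epi ϕ, 0 < u z ∧ u z ≤ 1) ∧
  ∃ (G : Option (Fin (n + 1)) → Pt n → ℝ) (T : (Fin (n + 1) → ℝ) → ℝ), HasGradTrace ϕ u G T ∧
    ∀ φ : Pt n → ℝ, ContDiff ℝ 1 φ → HasCompactSupport φ →
      (∫ z in epi ϕ, ∑ i, G i z * pd φ i z) + α⁻¹ * ∫ x, T x * φ (x, ϕ x) * surf ϕ x
        = ∫ z in epi ϕ, f (u z) * φ z

lemma conv {n : ℕ} {f : ℝ → ℝ} {α : ℝ} {ϕ : (Fin (n + 1) → ℝ) → ℝ} {u : Pt n → ℝ}
    (h : Pool.Agent.H314.Robin.IsPosBddSol f α ϕ u) : IsPosBddSol f α ϕ u := by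
  obtain ⟨h1, G, T, h2, h3⟩ := h
  exact ⟨h1, G, T, ⟨h2.meas_u, h2.meas_G, h2.meas_T, h2.approx⟩, h3⟩

/-- derivative of the reaction -/
noncomputable def fR' (s : ℝ) : ℝ := (5 - 84 * s + 321 * s ^ 2 - 280 * s ^ 3) / 2

lemma fR_reaction : PositiveReaction Pool.Agent.H314.Robin.fR fR' where
  deriv := by
    intro s _
    apply HasDerivAt.hasDerivWithinAt
    have h : HasDerivAt (fun s : ℝ => (5 * s - 42 * s ^ 2 + 107 * s ^ 3 - 70 * s ^ 4) / 2)
        ((5 * 1 - 42 * (2 * s) + 107 * (3 * s ^ 2) - 70 * (4 * s ^ 3)) / 2) s := by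
      have h1 := (hasDerivAt_id s).const_mul 5
      have h2 := (hasDerivAt_pow 2 s).const_mul 42
      have h3 := (hasDerivAt_pow 3 s).const_mul 107
      have h4 := (hasDerivAt_pow 4 s).const_mul 70
      have h5 := (((h1.sub h2).add h3).sub h4).div_const 2
      simpa using h5
    have e1 : Pool.Agent.H314.Robin.fR
        = fun s : ℝ => (5 * s - 42 * s ^ 2 + 107 * s ^ 3 - 70 * s ^ 4) / 2 := by
      funext s; unfold Pool.Agent.H314.Robin.fR; ring
    have e2 : fR' s = (5 * 1 - 42 * (2 * s) + 107 * (3 * s ^ 2) - 70 * (4 * s ^ 3)) / 2 := by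
      unfold fR'; ring
    rw [e1, e2]
    exact h
  hoelder := by
    refine ⟨1 / 2, ⟨by norm_num, by norm_num⟩, 783, ?_⟩
    intro s hs t ht
    obtain ⟨hs0, hs1⟩ := hs
    obtain ⟨ht0, ht1⟩ := ht
    have h : fR' s - fR' t = (s - t) * ((-84 + 321 * (s + t)
        - 280 * (s ^ 2 + s * t + t ^ 2)) / 2) := by unfold fR'; ring
    have h1 : |(-84 + 321 * (s + t) - 280 * (s ^ 2 + s * t + t ^ 2)) / 2| ≤ 783 := by
      have a1 : s ^ 2 ≤ 1 := pow_le_one₀ hs0 hs1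
      have a2 : t ^ 2 ≤ 1 := pow_le_one₀ ht0 ht1
      have a3 : s * t ≤ 1 := by nlinarith
      have b1 : 0 ≤ s ^ 2 := by positivity
      have b2 : 0 ≤ t ^ 2 := by positivity
      have b3 : 0 ≤ s * t := by positivity
      rw [abs_le]
      constructor <;> linarith
    have h2 : |s - t| ≤ |s - t| ^ (1 / 2 : ℝ) := by
      have hst : |s - t| ≤ 1 := by rw [abs_le]; constructor <;> linarith
      rcases (abs_nonneg (s - t)).eq_or_lt with h0 | h0
      · rw [← h0]; simp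
      · calc |s - t| = |s - t| ^ (1 : ℝ) := (Real.rpow_one _).symm
          _ ≤ |s - t| ^ (1 / 2 : ℝ) :=
            Real.rpow_le_rpow_of_exponent_ge h0 hst (by norm_num)
    rw [h, abs_mul, mul_comm]
    exact mul_le_mul h1 h2 (abs_nonneg _) (by norm_num)
  zero := by unfold Pool.Agent.H314.Robin.fR; norm_num
  one := by unfold Pool.Agent.H314.Robin.fR; norm_num
  pos := fun s hs => Pool.Agent.H314.Robin.fR_pos hs.1 hs.2
  deriv_zero := by unfold fR'; norm_num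
  deriv_one := by unfold fR'; norm_num

/-- In every dimension `d = n + 2 ≥ 2` there are a positive reaction `f`, a parameter `α > 0` and a
uniformly Lipschitz epigraph on which the Robin problem has two distinct positive bounded
solutions: on some nonempty open subset `S` of the domain `u₂ < 7/10 < u₁` almost everywhere. -/
theorem result (n : ℕ) :
    ∃ (f f' : ℝ → ℝ) (α : ℝ) (ϕ : (Fin (n + 1) → ℝ) → ℝ) (u₁ u₂ : Pt n → ℝ),
      PositiveReaction f f' ∧ 0 < α ∧ (∃ K : ℝ≥0, LipschitzWith K ϕ) ∧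
      IsPosBddSol f α ϕ u₁ ∧ IsPosBddSol f α ϕ u₂ ∧
      ∃ S ⊆ epi ϕ, IsOpen S ∧ S.Nonempty ∧
        ∀ᵐ z ∂(volume.restrict S), u₂ z < 7 / 10 ∧ 7 / 10 < u₁ z := by
  obtain ⟨u₁, h1, hA⟩ := Pool.Agent.H314.Robin.sol_A n
  obtain ⟨u₂, h2, hB⟩ := Pool.Agent.H314.Robin.sol_B n
  refine ⟨Pool.Agent.H314.Robin.fR, fR', Pool.Agent.H314.Robin.cα,
    Pool.Agent.H314.Robin.floorFn Real.pi Pool.Agent.H314.Robin.cL Pool.Agent.H314.Robin.cw,
    u₁, u₂, fR_reaction, Pool.Agent.H314.Robin.cα_pos,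
    ⟨_, Pool.Agent.H314.Robin.floorFn_lip Pool.Agent.H314.Robin.cL_pos⟩, conv h1, conv h2, ?_⟩
  have hc0 : Continuous fun z : Pt n => z.1 0 := (continuous_apply 0).comp continuous_fst
  set S : Set (Pt n) := {z | |z.1 0| < 1 / 10 ^ 5} ∩ {z | -Real.pi < z.2} ∩ {z | z.2 < -2} with hS
  have hSo : IsOpen S := by
    apply IsOpen.inter
    · apply IsOpen.inter
      · exact isOpen_lt hc0.abs continuous_const
      · exact isOpen_lt continuous_const continuous_snd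
    · exact isOpen_lt continuous_snd continuous_const
  have hsub : S ⊆ epi (Pool.Agent.H314.Robin.floorFn Real.pi Pool.Agent.H314.Robin.cL
      Pool.Agent.H314.Robin.cw) := by
    rintro z ⟨⟨hz1, hz2⟩, hz3⟩
    simp only [mem_ofPred_eq] at hz1 hz2 hz3
    show Pool.Agent.H314.Robin.floorFn _ _ _ z.1 < z.2
    have h4 := Pool.Agent.H314.Robin.cw_sub
    have h5 := Pool.Agent.H314.Robin.cL_pos
    have h6 : Pool.Agent.H314.Robin.cL * (|z.1 0| - Pool.Agent.H314.Robin.cw) ≤ -Real.pi := by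
      have h7 : |z.1 0| - Pool.Agent.H314.Robin.cw ≤ -(Real.pi / Pool.Agent.H314.Robin.cL) := by
        linarith
      have h8 := mul_le_mul_of_nonneg_left h7 h5.le
      have h9 : Pool.Agent.H314.Robin.cL * -(Real.pi / Pool.Agent.H314.Robin.cL) = -Real.pi := by
        field_simp
      linarith
    unfold Pool.Agent.H314.Robin.floorFn Pool.Agent.H314.Robin.wellProfile
    rw [min_eq_right (h6.trans (by linarith [Real.pi_pos])), max_eq_left h6]
    exact hz2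
  refine ⟨S, hsub, hSo, ⟨(0, -3), ⟨⟨by simp, ?_⟩, ?_⟩⟩, ?_⟩
  · show -Real.pi < -3
    linarith [Real.pi_gt_three]
  · show (-3 : ℝ) < -2
    norm_num
  · have hB' := ae_restrict_of_ae_restrict_of_subset hsub hB
    filter_upwards [hB', ae_restrict_mem hSo.measurableSet] with z hz1 hz2
    constructor
    · obtain ⟨⟨hz3, hz4⟩, hz5⟩ := hz2
      simp only [mem_ofPred_eq] at hz3 hz4 hz5
      have h3 := (Pool.Agent.H314.Robin.Qc_bounds n z).2
      have h4 : Pool.Agent.H314.Robin.Wf z.2 ≤ 0.635 := by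
        unfold Pool.Agent.H314.Robin.Wf
        rw [min_eq_left (by linarith)]
        have h5 : Real.cos z.2 ≤ 0 := by
          rw [← Real.cos_neg]
          apply Real.cos_nonpos_of_pi_div_two_le_of_le
          · have := Real.pi_lt_d2; linarith
          · linarith [Real.pi_pos]
        linarith
      calc u₂ z ≤ _ := hz1
        _ ≤ _ := h3
        _ ≤ 0.635 := h4
        _ < 7 / 10 := by norm_num
    · have h3 := (Pool.Agent.H314.Robin.Pc_bounds n (c := 3 / 4) (by norm_num) z).1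
      have h4 := hA z
      calc (7 / 10 : ℝ) < 0.998 * (3 / 4) := by norm_num
        _ ≤ _ := h3
        _ ≤ u₁ z := h4

end Pool.Agent.Results.MP_1dc5fb_an.TwoSolutions
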